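import Pool.Agent.Lib.CIM.Eqv
import Pool.Agent.Lib.CIM.Zro

/-!
# MP_9aeaaa_lc, Q1 for all closed manifolds of dimension at most one: yes

Topological conjugacy of the smooth diffeomorphisms of a closed manifold of dimension at most one
is exactly the orbit equivalence relation of a Borel action of a Polish group on the space of
smooth diffeomorphisms.
-/

set_option autoImplicit false

namespace Pool.Agent.Results.MP_9aeaaa_lc.ConjugacyOrbits

open scoped ContDiff Manifold

/-- The `C^∞` diffeomorphisms of a manifold modelled on `ℝ ^ d`. -/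
abbrev Diff (d : ℕ) (M : Type*) [TopologicalSpace M] [ChartedSpace (EuclideanSpace ℝ (Fin d)) M] :=
  M ≃ₘ⟮𝓘(ℝ, EuclideanSpace ℝ (Fin d)), 𝓘(ℝ, EuclideanSpace ℝ (Fin d))⟯ M

/-- Topological conjugacy: the conjugating map is only a homeomorphism. -/
def TopConj {d : ℕ} {M : Type*} [TopologicalSpace M] [ChartedSpace (EuclideanSpace ℝ (Fin d)) M]
    (f g : Diff d M) : Prop :=
  ∃ h : M ≃ₜ M, ∀ m, h (f m) = g (h m)

/-- Let `M` be a closed smooth manifold of dimension at most one. For every Polish topology `τ` on
the space of diffeomorphisms for which all evaluation maps are continuous (the `C^∞` topology is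
one), there are a Polish group `G` and an action of `G` on the space of diffeomorphisms which is
Borel measurable as a map `G × Diff → Diff` and whose orbits are exactly the classes of topological
conjugacy. -/
theorem result {d : ℕ} (hd : d ≤ 1) {M : Type*} [TopologicalSpace M]
    [ChartedSpace (EuclideanSpace ℝ (Fin d)) M]
    [IsManifold 𝓘(ℝ, EuclideanSpace ℝ (Fin d)) ∞ M] [CompactSpace M] [T2Space M]
    (τ : TopologicalSpace (Diff d M)) (hτ : @PolishSpace (Diff d M) τ)
    (hev : ∀ m : M, @Continuous (Diff d M) M τ _ fun f => f m) :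
    ∃ (G : Type) (_ : Group G) (_ : TopologicalSpace G) (_ : IsTopologicalGroup G)
      (_ : PolishSpace G) (_ : MulAction G (Diff d M)),
      (@Measurable (G × Diff d M) (Diff d M)
        (@Prod.instMeasurableSpace G (Diff d M) (borel G) (@borel (Diff d M) τ))
        (@borel (Diff d M) τ) fun p => p.1 • p.2) ∧
      ∀ f g : Diff d M, TopConj f g ↔ ∃ a : G, a • f = g := by
  interval_cases d
  · exact Pool.Agent.CIM.main0 τ hτ
  · have h1 : @borel _ τ = Pool.Agent.CIM.evM M :=
      Pool.Agent.Lib.P9aeaaa.borel_eq_evalSigma τ hτ hev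
    have h2 : @StandardBorelSpace (Diff 1 M) (Pool.Agent.CIM.evM M) := by
      rw [← h1]
      exact @standardBorel_of_polish _ (@borel _ τ) τ (@BorelSpace.mk _ τ (@borel _ τ) rfl) hτ
    rw [h1]
    exact Pool.Agent.CIM.main1 h2

end Pool.Agent.Results.MP_9aeaaa_lc.ConjugacyOrbits
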