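import Pool.Agent.Lib.P9aeaaa.Final
import Pool.Agent.Lib.P9Q.One
import Pool.Agent.Lib.P9Q.SAct

/-!
# MP_9aeaaa_lc, Q2: the complete answer for closed manifolds

Topological conjugacy of the smooth diffeomorphisms of a nonempty closed manifold `M` is Borel
reducible to the orbit equivalence relation of a Borel action of the group of all permutations of
the natural numbers if and only if `dim M ≤ 1`.
-/

namespace Pool.Agent.Results.MP_9aeaaa_lc.Dichotomy

open scoped ContDiff Manifold

/-- The smooth diffeomorphisms of a manifold modelled on `ℝ ^ d`. -/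
abbrev Diff (d : ℕ) (M : Type*) [TopologicalSpace M]
    [ChartedSpace (EuclideanSpace ℝ (Fin d)) M] :=
  M ≃ₘ⟮𝓘(ℝ, EuclideanSpace ℝ (Fin d)), 𝓘(ℝ, EuclideanSpace ℝ (Fin d))⟯ M

/-- Topological conjugacy: the conjugating map is only a homeomorphism. -/
def TopConj {d : ℕ} {M : Type*} [TopologicalSpace M]
    [ChartedSpace (EuclideanSpace ℝ (Fin d)) M] (f g : Diff d M) : Prop :=
  ∃ h : M ≃ₜ M, ∀ m, h (f m) = g (h m)

/-- `𝒜` is the σ-algebra generated by the evaluation maps, or the Borel σ-algebra of some Polish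
topology on the diffeomorphisms for which all evaluation maps are continuous. The smooth topology
is such a Polish topology. -/
def IsBorelStructure {d : ℕ} {M : Type*} [TopologicalSpace M]
    [ChartedSpace (EuclideanSpace ℝ (Fin d)) M] (𝒜 : MeasurableSpace (Diff d M)) : Prop :=
  𝒜 = (⨆ m : M, MeasurableSpace.comap (fun f : Diff d M => f m) (borel M)) ∨
    ∃ τ : TopologicalSpace (Diff d M), @PolishSpace _ τ ∧
      (∀ m : M, @Continuous _ _ τ _ fun f : Diff d M => f m) ∧ 𝒜 = @borel _ τ

/-- The Borel σ-algebra of the topology of pointwise convergence on the group of all permutations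
of `ℕ`. -/
@[instance_reducible]
def permBorel : MeasurableSpace (Equiv.Perm ℕ) :=
  @borel _ (TopologicalSpace.induced (fun g : Equiv.Perm ℕ => (g : ℕ → ℕ)) inferInstance)

/-- The action of the group of all permutations of `ℕ` on `Y` is a Borel map. -/
def IsBorelAction (Y : Type*) [MeasurableSpace Y] [MulAction (Equiv.Perm ℕ) Y] : Prop :=
  @Measurable _ _ (@Prod.instMeasurableSpace _ _ permBorel _) _
    fun p : Equiv.Perm ℕ × Y => p.1 • p.2

/-- The equivalence relation `E` on a space with σ-algebra `𝒜` is Borel reducible to the orbit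
equivalence relation of a Borel action of the group of all permutations of `ℕ` on a standard Borel
space in the universe `u`. -/
def Reducible.{u, v} {X : Type v} (𝒜 : MeasurableSpace X) (E : X → X → Prop) : Prop :=
  ∃ (Y : Type u) (_ : MeasurableSpace Y) (_ : StandardBorelSpace Y)
    (_ : MulAction (Equiv.Perm ℕ) Y), IsBorelAction Y ∧
    ∃ θ : X → Y, @Measurable _ _ 𝒜 _ θ ∧
      ∀ x y, E x y ↔ ∃ σ : Equiv.Perm ℕ, σ • θ x = θ y

theorem permBorel_eq : permBorel = Pool.Agent.Lib.P9aeaaa.permMeas := by
  have h1 : permBorel = MeasurableSpace.comap (fun g : Equiv.Perm ℕ => (g : ℕ → ℕ)) (borel _) :=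
    borel_comap
  rw [h1, ← BorelSpace.measurable_eq (α := ℕ → ℕ)]
  unfold Pool.Agent.Lib.P9aeaaa.permMeas
  show MeasurableSpace.comap _ (⨆ n, MeasurableSpace.comap (fun b : ℕ → ℕ => b n) _) = _
  rw [MeasurableSpace.comap_iSup]
  refine iSup_congr fun n => ?_
  rw [MeasurableSpace.comap_comp]
  rfl

/-- The frame of the first two coordinate vectors. -/
noncomputable def frame {d : ℕ} (hd : 2 ≤ d) :
    Pool.Agent.Lib.P9aeaaa.Frame (EuclideanSpace ℝ (Fin d)) where
  e0 := EuclideanSpace.single ⟨0, by omega⟩ 1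
  e1 := EuclideanSpace.single ⟨1, by omega⟩ 1
  n0 := by simp
  n1 := by simp
  orth := by
    rw [EuclideanSpace.inner_single_left]
    simp

theorem standardBorel_ulift.{u, v} (Y : Type v) [MeasurableSpace Y] [h : StandardBorelSpace Y] :
    StandardBorelSpace (ULift.{u} Y) := by
  obtain ⟨τ, hb, hp⟩ := h.polish
  have h1 : PolishSpace (ULift.{u} Y) := Homeomorph.ulift.isClosedEmbedding.polishSpace
  refine ⟨⟨inferInstance, ⟨?_⟩, h1⟩⟩
  have h2 : borel (ULift.{u} Y) = MeasurableSpace.comap ULift.down (borel Y) :=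
    borel_comap
  rw [h2, ← hb.measurable_eq]
  apply le_antisymm
  · intro t ht
    exact ⟨ULift.up ⁻¹' t, MeasurableEquiv.ulift.symm.measurable ht, rfl⟩
  · rw [← measurable_iff_comap_le]
    exact MeasurableEquiv.ulift.measurable

/-- From structures on `ℕ` to a reduction in any universe. -/
theorem reducible_of_cls.{u, v} {X : Type v} (𝒜 : MeasurableSpace X) {E : X → X → Prop}
    (h : Pool.Agent.Lib.P9Q.Cls E) : Reducible.{u, v} 𝒜 E := by
  obtain ⟨Y, mY, sY, aY, hact, θ, hθ, hE⟩ := h.action
  have hperm : Pool.Agent.Lib.P9Q.permSig = permBorel := by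
    rw [permBorel_eq]
    rfl
  rw [hperm] at hact
  let e : Y ≃ᵐ ULift.{u} Y := MeasurableEquiv.ulift.symm
  let aY' : MulAction (Equiv.Perm ℕ) (ULift.{u} Y) :=
    { smul := fun σ y => ULift.up (σ • y.down)
      one_smul := fun y => by
        show ULift.up ((1 : Equiv.Perm ℕ) • y.down) = y
        rw [one_smul]
      mul_smul := fun σ τ y => by
        show ULift.up ((σ * τ) • y.down) = ULift.up (σ • τ • y.down)
        rw [mul_smul] }
  refine ⟨ULift.{u} Y, inferInstance, standardBorel_ulift Y, aY', ?_,
    fun x => ULift.up (θ x), e.measurable.comp hθ, fun x y => ?_⟩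
  · unfold IsBorelAction
    have h1 : @Measurable (Equiv.Perm ℕ × ULift.{u} Y) (Equiv.Perm ℕ × Y)
        (@Prod.instMeasurableSpace _ _ permBorel _) (@Prod.instMeasurableSpace _ _ permBorel _)
        (fun p => (p.1, p.2.down)) := by
      let _ := permBorel
      exact measurable_fst.prodMk (e.symm.measurable.comp measurable_snd)
    exact e.measurable.comp (hact.comp h1)
  · rw [hE]
    refine exists_congr fun σ => ?_
    show σ • θ x = θ y ↔ ULift.up (σ • θ x) = ULift.up (θ y)
    exact ULift.up_inj.symm

/-- **Complete answer to Q2.** For a nonempty closed smooth manifold `M` of dimension `d`,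
topological conjugacy of smooth diffeomorphisms of `M` is Borel reducible to the orbit equivalence
relation of a Borel action of the group of all permutations of `ℕ` on a standard Borel space if
and only if `d ≤ 1`. -/
theorem result.{u, v} {d : ℕ} {M : Type v} [TopologicalSpace M]
    [ChartedSpace (EuclideanSpace ℝ (Fin d)) M]
    [IsManifold 𝓘(ℝ, EuclideanSpace ℝ (Fin d)) ∞ M] [CompactSpace M] [T2Space M] [Nonempty M]
    {𝒜 : MeasurableSpace (Diff d M)} (h𝒜 : IsBorelStructure 𝒜) :
    Reducible.{u, v} 𝒜 (TopConj (d := d) (M := M)) ↔ d ≤ 1 := by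
  have hA : 𝒜 = Pool.Agent.Lib.P9aeaaa.evalSigma (EuclideanSpace ℝ (Fin d)) M := by
    rcases h𝒜 with rfl | ⟨τ, hτ, hev, rfl⟩
    · rfl
    · exact Pool.Agent.Lib.P9aeaaa.borel_eq_evalSigma τ hτ hev
  subst hA
  constructor
  · intro h
    by_contra hd
    push Not at hd
    obtain ⟨Y, mY, sY, aY, hact, θ, hθ, hE⟩ := h
    unfold IsBorelAction at hact
    rw [permBorel_eq] at hact
    exact Pool.Agent.Lib.P9aeaaa.main (frame hd) hact θ hθ hE
  · intro hd
    apply reducible_of_cls
    let _ : MeasurableSpace (Diff d M) :=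
      Pool.Agent.Lib.P9aeaaa.evalSigma (EuclideanSpace ℝ (Fin d)) M
    have hev : ∀ m : M, @Measurable (Diff d M) M _ (borel M)
        fun f => f.toHomeomorph m := by
      intro m
      rw [measurable_iff_comap_le]
      exact le_iSup (fun m : M => MeasurableSpace.comap (fun f : Diff d M => f m) (borel M)) m
    have key : Pool.Agent.Lib.P9Q.Cls fun f g : Diff d M =>
        Pool.Agent.Lib.P9Q.HConj f.toHomeomorph g.toHomeomorph := by
      interval_cases d
      · have := Pool.Agent.Lib.P9Q.discrete_of_charted (M := M)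
        have : Finite M := finite_of_compact_of_discrete
        exact Pool.Agent.Lib.P9Q.fin_cls _ hev
      · exact Pool.Agent.Lib.P9Q.one_cls Pool.Agent.Lib.P9Q.arcs_of_charted _ hev
    exact key

end Pool.Agent.Results.MP_9aeaaa_lc.Dichotomy
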